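import Mathlib.GroupTheory.PGroup
import Mathlib.GroupTheory.Index
import Mathlib.GroupTheory.Nilpotent
import Mathlib.GroupTheory.IndexNormal
import Mathlib.GroupTheory.Sylow
import Mathlib.Data.Nat.Log
import Mathlib.Tactic

/-! Elementary abelian sections, covering lemmas and the dyadic lemma. -/

namespace MP_b83a82_al

open scoped commutatorElement

variable {G : Type*} [Group G]

/-- `H / K` is an elementary abelian `p`-section. -/
def ElSec (p : ℕ) (K H : Subgroup G) : Prop :=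
  K ≤ H ∧ (∀ h ∈ H, h ^ p ∈ K) ∧ ∀ h ∈ H, ∀ h' ∈ H, ⁅h, h'⁆ ∈ K

/-- all elementary abelian sections of `S` have order at most `p ^ a`. -/
def RkLE (p : ℕ) (S : Subgroup G) (a : ℕ) : Prop :=
  ∀ K H : Subgroup G, H ≤ S → ElSec p K H → K.relIndex H ≤ p ^ a

/-- `g` maps `X` into `Z` under `u ↦ [g, u]`. -/
def Act (g : G) (X Z : Subgroup G) : Prop := ∀ u ∈ X, ⁅g, u⁆ ∈ Z

theorem ElSec.inf {p : ℕ} {K H : Subgroup G} (h : ElSec p K H) (T : Subgroup G) :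
    ElSec p (K ⊓ T) (H ⊓ T) := by
  obtain ⟨h1, h2, h3⟩ := h
  refine ⟨inf_le_inf_right T h1, ?_, ?_⟩
  · intro x hx
    exact ⟨h2 x hx.1, T.pow_mem hx.2 p⟩
  · intro x hx y hy
    refine ⟨h3 x hx.1 y hy.1, ?_⟩
    rw [commutatorElement_def]
    exact T.mul_mem (T.mul_mem (T.mul_mem hx.2 hy.2) (T.inv_mem hx.2)) (T.inv_mem hy.2)

theorem ElSec.restrict {p : ℕ} {K H : Subgroup G} (h : ElSec p K H) {T : Subgroup G}
    (hT : T ≤ H) : ElSec p (K ⊓ T) T := by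
  have := h.inf T
  rwa [inf_eq_right.mpr hT] at this

theorem relIndex_ne [Finite G] (H K : Subgroup G) : H.relIndex K ≠ 0 := by
  have : (H.subgroupOf K).FiniteIndex := inferInstance
  exact Subgroup.FiniteIndex.index_ne_zero

theorem relIndex_mono_right [Finite G] (H : Subgroup G) {K L : Subgroup G} (h : K ≤ L) :
    H.relIndex K ≤ H.relIndex L :=
  Subgroup.relIndex_le_of_le_right h (relIndex_ne H L)

theorem relIndex_anti_left [Finite G] {H K : Subgroup G} (h : H ≤ K) (L : Subgroup G) :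
    K.relIndex L ≤ H.relIndex L :=
  Subgroup.relIndex_le_of_le_left h (relIndex_ne H L)

/-- covering lemma: if `T ⊆ U S` then `|T : S| ≤ |U : S|`. -/
theorem relIndex_le_of_cover [Finite G] {S T U : Subgroup G} (hUT : U ≤ T)
    (h : ∀ t ∈ T, ∃ u ∈ U, u⁻¹ * t ∈ S) : S.relIndex T ≤ S.relIndex U := by
  rw [Subgroup.relIndex, Subgroup.relIndex, Subgroup.index_eq_card, Subgroup.index_eq_card]
  let f : U ⧸ (S.subgroupOf U) → T ⧸ (S.subgroupOf T) :=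
    Quotient.map' (fun u => (⟨u.1, hUT u.2⟩ : T)) (by
      intro a b hab
      rw [QuotientGroup.leftRel_apply] at hab ⊢
      exact hab)
  have hf : Function.Surjective f := by
    intro q
    induction q using QuotientGroup.induction_on with
    | H t =>
      obtain ⟨u, hu, hut⟩ := h t.1 t.2
      refine ⟨QuotientGroup.mk (⟨u, hu⟩ : U), ?_⟩
      change (QuotientGroup.mk (⟨u, hUT hu⟩ : T) : T ⧸ (S.subgroupOf T)) = QuotientGroup.mk t
      rw [QuotientGroup.eq]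
      exact hut
  exact Nat.card_le_card_of_surjective f hf

/-- `|S' : S| ≤ |S' ∩ T : S ∩ T| |G : T|`. -/
theorem relIndex_le_inf_mul_index [Finite G] {S S' : Subgroup G} (T : Subgroup G) :
    S.relIndex S' ≤ (S ⊓ T).relIndex (S' ⊓ T) * T.index := by
  calc S.relIndex S' ≤ (S ⊓ T).relIndex S' := relIndex_anti_left inf_le_left _
    _ = (T ⊓ S).relIndex S' := by rw [inf_comm]
    _ = (S ⊓ T).relIndex S' := by rw [inf_comm]
    _ = S.relIndex (T ⊓ S') * T.relIndex S' := (Subgroup.relIndex_inf_mul_relIndex S T S').symm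
    _ ≤ (S ⊓ T).relIndex (S' ⊓ T) * T.index := by
        refine Nat.mul_le_mul ?_ ?_
        · rw [inf_comm T S']
          exact relIndex_anti_left inf_le_left _
        · rw [← Subgroup.relIndex_top_right]
          exact relIndex_mono_right T le_top

/-- `|H : K| ≤ |HW : KW| |H ∩ W : K ∩ W|` if `K ⊔ W = W K`. -/
theorem relIndex_le_sup_mul_inf' [Finite G] {K H : Subgroup G} (hKH : K ≤ H) (W : Subgroup G)
    (hKW : ∀ t ∈ K ⊔ W, ∃ w ∈ W, ∃ k ∈ K, w * k = t) :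
    K.relIndex H ≤ (K ⊔ W).relIndex (H ⊔ W) * (K ⊓ W).relIndex (H ⊓ W) := by
  have h1 : K ≤ (K ⊔ W) ⊓ H := le_inf le_sup_left hKH
  have h2 : K.relIndex ((K ⊔ W) ⊓ H) * ((K ⊔ W) ⊓ H).relIndex H = K.relIndex H :=
    Subgroup.relIndex_mul_relIndex _ _ _ h1 inf_le_right
  rw [← h2, mul_comm]
  refine Nat.mul_le_mul ?_ ?_
  · rw [Subgroup.inf_relIndex_right]
    exact relIndex_mono_right _ le_sup_left
  · have h3 : K.relIndex ((K ⊔ W) ⊓ H) ≤ K.relIndex (H ⊓ W) := by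
      refine relIndex_le_of_cover (le_inf (le_trans inf_le_right le_sup_right) inf_le_left) ?_
      intro t ht
      obtain ⟨w, hw, k, hk, rfl⟩ := hKW t ht.1
      refine ⟨w, ⟨?_, hw⟩, ?_⟩
      · have : w * k * k⁻¹ ∈ H := H.mul_mem ht.2 (H.inv_mem (hKH hk))
        simpa using this
      · simpa using hk
    refine h3.trans ?_
    exact relIndex_anti_left inf_le_left _

theorem relIndex_le_sup_mul_inf [Finite G] {K H : Subgroup G} (hKH : K ≤ H) (W : Subgroup G)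
    [W.Normal] : K.relIndex H ≤ (K ⊔ W).relIndex (H ⊔ W) * (K ⊓ W).relIndex (H ⊓ W) := by
  refine relIndex_le_sup_mul_inf' hKH W ?_
  intro t ht
  rw [sup_comm] at ht
  exact (Subgroup.mem_sup_of_normal_left).mp ht

theorem relIndex_le_sup_mul_inf_left [Finite G] {K H : Subgroup G} (hKH : K ≤ H)
    (W : Subgroup G) [K.Normal] :
    K.relIndex H ≤ (K ⊔ W).relIndex (H ⊔ W) * (K ⊓ W).relIndex (H ⊓ W) := by
  refine relIndex_le_sup_mul_inf' hKH W ?_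
  intro t ht
  rw [sup_comm] at ht
  exact (Subgroup.mem_sup_of_normal_right).mp ht

/-- dyadic lemma. -/
theorem dyadic [Finite G] {p a : ℕ} {A : Subgroup G} (hA : RkLE p A a) (D : ℕ → Subgroup G)
    (hD : ∀ i, 1 ≤ i → ElSec p (D (2 * i)) (D i)) (hDA : D 1 ≤ A) (k : ℕ) :
    D (2 ^ k) ≤ D 1 ∧ (D (2 ^ k)).relIndex (D 1) ≤ p ^ (a * k) := by
  induction k with
  | zero => simp
  | succ k ih =>
    obtain ⟨h1, h2⟩ := ih
    have h3 := hD (2 ^ k) Nat.one_le_two_pow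
    have h4 : 2 ^ (k + 1) = 2 * 2 ^ k := by ring
    rw [h4]
    refine ⟨h3.1.trans h1, ?_⟩
    rw [← Subgroup.relIndex_mul_relIndex _ _ _ h3.1 h1]
    calc (D (2 * 2 ^ k)).relIndex (D (2 ^ k)) * (D (2 ^ k)).relIndex (D 1)
        ≤ p ^ a * p ^ (a * k) := Nat.mul_le_mul (hA _ _ (h1.trans hDA) h3) h2
      _ = p ^ (a * (k + 1)) := by rw [← pow_add]; ring_nf

/-! ### two step lemma -/

theorem mem_iff_commute {N : Subgroup G} [N.Normal] {g u : G} :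
    ⁅g, u⁆ ∈ N ↔ Commute (g : G ⧸ N) (u : G ⧸ N) := by
  rw [← commutatorElement_eq_one_iff_commute, ← QuotientGroup.eq_one_iff]
  rfl

theorem two_step_comm {X Z Y : Subgroup G} [X.Normal] [Z.Normal] [Y.Normal]
    (hZab : ∀ z ∈ Z, ∀ z' ∈ Z, ⁅z, z'⁆ ∈ Y) {g h : G} (g1 : Act g X Z) (g2 : Act g Z Y)
    (h1 : Act h X Z) (h2 : Act h Z Y) : Act ⁅g, h⁆ X Y := by
  intro v hv
  -- v = (h g) u (h g)⁻¹
  set u : G := (h * g)⁻¹ * v * (h * g) with hu
  have huX : u ∈ X := by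
    have := (inferInstance : X.Normal).conj_mem v hv (h * g)⁻¹
    simpa [hu] using this
  have hgu := g1 u huX
  have hhu := h1 u huX
  have c1 : Commute (g : G ⧸ Y) ((⁅h, u⁆ : G) : G ⧸ Y) := mem_iff_commute.mp (g2 _ hhu)
  have c2 : Commute (h : G ⧸ Y) ((⁅g, u⁆ : G) : G ⧸ Y) := mem_iff_commute.mp (h2 _ hgu)
  have c3 : Commute ((⁅g, u⁆ : G) : G ⧸ Y) ((⁅h, u⁆ : G) : G ⧸ Y) :=
    mem_iff_commute.mp (hZab _ hgu _ hhu)
  rw [mem_iff_commute]
  have e1 : ((g * h * u * (g * h)⁻¹ : G) : G ⧸ Y) =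
      ((⁅h, u⁆ : G) : G ⧸ Y) * ((⁅g, u⁆ : G) : G ⧸ Y) * (u : G ⧸ Y) := by
    have : (g * h * u * (g * h)⁻¹ : G) = (g * ⁅h, u⁆ * g⁻¹) * (⁅g, u⁆ * u) := by
      simp only [commutatorElement_def]; group
    rw [this]
    simp only [QuotientGroup.mk_mul, QuotientGroup.mk_inv]
    rw [c1.eq]
    group
  have e2 : ((h * g * u * (h * g)⁻¹ : G) : G ⧸ Y) =
      ((⁅g, u⁆ : G) : G ⧸ Y) * ((⁅h, u⁆ : G) : G ⧸ Y) * (u : G ⧸ Y) := by
    have : (h * g * u * (h * g)⁻¹ : G) = (h * ⁅g, u⁆ * h⁻¹) * (⁅h, u⁆ * u) := by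
      simp only [commutatorElement_def]; group
    rw [this]
    simp only [QuotientGroup.mk_mul, QuotientGroup.mk_inv]
    rw [c2.eq]
    group
  have e3 : ((g * h * u * (g * h)⁻¹ : G) : G ⧸ Y) = ((h * g * u * (h * g)⁻¹ : G) : G ⧸ Y) := by
    rw [e1, e2, c3.eq]
  have hv' : v = h * g * u * (h * g)⁻¹ := by rw [hu]; group
  have e4 : (g * h * u * (g * h)⁻¹ : G) = ⁅g, h⁆ * v * ⁅g, h⁆⁻¹ := by
    rw [hv']; simp only [commutatorElement_def]; group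
  rw [e4, ← hv'] at e3
  simp only [QuotientGroup.mk_mul, QuotientGroup.mk_inv] at e3
  have := mul_inv_eq_iff_eq_mul.mp e3
  exact this

theorem two_step_pow {X Z Y : Subgroup G} [X.Normal] [Z.Normal] [Y.Normal] {p : ℕ}
    (hZp : ∀ z ∈ Z, z ^ p ∈ Y) {g : G} (g1 : Act g X Z) (g2 : Act g Z Y) : Act (g ^ p) X Y := by
  intro u hu
  have hgu := g1 u hu
  have c1 : Commute (g : G ⧸ Y) ((⁅g, u⁆ : G) : G ⧸ Y) := mem_iff_commute.mp (g2 _ hgu)
  have key : ∀ n : ℕ, (g : G ⧸ Y) ^ n * (u : G ⧸ Y) * ((g : G ⧸ Y) ^ n)⁻¹ =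
      ((⁅g, u⁆ : G) : G ⧸ Y) ^ n * (u : G ⧸ Y) := by
    intro n
    induction n with
    | zero => simp
    | succ n ih =>
      have e0 : (g : G ⧸ Y) * (u : G ⧸ Y) * (g : G ⧸ Y)⁻¹ = ((⁅g, u⁆ : G) : G ⧸ Y) * (u : G ⧸ Y) := by
        rw [← QuotientGroup.mk_mul, ← QuotientGroup.mk_inv, ← QuotientGroup.mk_mul,
          ← QuotientGroup.mk_mul]
        congr 1
        simp only [commutatorElement_def]; group
      calc (g : G ⧸ Y) ^ (n + 1) * (u : G ⧸ Y) * ((g : G ⧸ Y) ^ (n + 1))⁻¹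
          = (g : G ⧸ Y) * ((g : G ⧸ Y) ^ n * (u : G ⧸ Y) * ((g : G ⧸ Y) ^ n)⁻¹) *
              (g : G ⧸ Y)⁻¹ := by
            rw [pow_succ']; group
        _ = (g : G ⧸ Y) * (((⁅g, u⁆ : G) : G ⧸ Y) ^ n * (u : G ⧸ Y)) * (g : G ⧸ Y)⁻¹ := by rw [ih]
        _ = ((g : G ⧸ Y) * ((⁅g, u⁆ : G) : G ⧸ Y) ^ n) * (u : G ⧸ Y) * (g : G ⧸ Y)⁻¹ := by
            simp only [mul_assoc]
        _ = (((⁅g, u⁆ : G) : G ⧸ Y) ^ n * (g : G ⧸ Y)) * (u : G ⧸ Y) * (g : G ⧸ Y)⁻¹ := by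
            rw [(c1.pow_right n).eq]
        _ = ((⁅g, u⁆ : G) : G ⧸ Y) ^ n * ((g : G ⧸ Y) * (u : G ⧸ Y) * (g : G ⧸ Y)⁻¹) := by
            simp only [mul_assoc]
        _ = ((⁅g, u⁆ : G) : G ⧸ Y) ^ (n + 1) * (u : G ⧸ Y) := by
            rw [e0, pow_succ, mul_assoc]
  have h1 := key p
  have h2 : ((⁅g, u⁆ : G) : G ⧸ Y) ^ p = 1 := by
    rw [← QuotientGroup.mk_pow, QuotientGroup.eq_one_iff]
    exact hZp _ hgu
  rw [h2, one_mul] at h1
  rw [mem_iff_commute, QuotientGroup.mk_pow]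
  exact mul_inv_eq_iff_eq_mul.mp h1

end MP_b83a82_al
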