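import Pool.Agent.Lib.MP_b83a82_al.Strong

/-! The quasi-linear bound. -/

namespace MP_b83a82_al

open scoped commutatorElement

variable {G : Type*} [Group G]

theorem pw_sq_le (p : ℕ) (N : Subgroup G) : pw N (p ^ 2) ≤ pw (pw N p) p := by
  rw [pw, Subgroup.closure_le]
  rintro _ ⟨x, hx, rfl⟩
  rw [pow_two, pow_mul]
  exact pow_mem_pw (pow_mem_pw hx)

theorem comm_mem_pw [Finite G] {p : ℕ} [hp : Fact p.Prime] (hG : IsPGroup p G)
    {N : Subgroup G} (hN : N.Normal) (hNW : N ≤ trivS G (p ^ 2)) {x y : G} (hx : x ∈ N)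
    (hy : y ∈ N) : ⁅x, y⁆ ∈ pw (pw N p) p :=
  pw_sq_le p N (trivS_comm hG hN hNW (hNW hx) y hy)

/-- the rank of subgroups of `N` is at most the rank of `N / N^p`. -/
theorem rank_strong [Finite G] {p : ℕ} [hp : Fact p.Prime] (hG : IsPGroup p G) (n : ℕ) :
    ∀ N : Subgroup G, Nat.card N = n → N.Normal → N ≤ trivS G (p ^ 2) →
      ∀ K0 H : Subgroup G, H ≤ N → ElSec p K0 H → K0.relIndex H ≤ (pw N p).relIndex N := by
  induction n using Nat.strong_induction_on with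
  | _ n ih =>
    intro N hcard hN hNW K0 H hHN hS
    by_cases hbot : N = ⊥
    · subst hbot
      have : H = ⊥ := le_bot_iff.mp hHN
      subst this
      rw [Subgroup.relIndex_bot_right]
      exact Nat.one_le_iff_ne_zero.mpr (relIndex_ne _ _)
    set K := pw N p with hK
    set L := pw K p with hL
    have hKn : K.Normal := pw_normal hN p
    have hLn : L.Normal := pw_normal hKn p
    have hKN : K ≤ N := pw_le
    have hLK : L ≤ K := pw_le
    have hKlt : K < N := pw_lt hG hbot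
    have hKW : K ≤ trivS G (p ^ 2) := hKN.trans hNW
    have hcardK : Nat.card K < n := by
      rw [← hcard]
      by_contra hge
      exact hKlt.ne (Subgroup.eq_of_le_of_card_ge hKN (not_lt.mp hge))
    have hcom : ∀ x ∈ N, ∀ x' ∈ N, ⁅x, x'⁆ ∈ L := fun x hx x' hx' =>
      comm_mem_pw hG hN hNW hx hx'
    have hLL : pw L p ≤ L := pw_le
    -- induction hypothesis applied to `(K0 ⊓ L, H ⊓ K)`
    have hS1 : ElSec p (K0 ⊓ L) (H ⊓ K) := by
      refine ⟨inf_le_inf hS.1 hLK, ?_, ?_⟩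
      · intro x hx
        exact ⟨hS.2.1 x hx.1, pow_mem_pw hx.2⟩
      · intro x hx y hy
        refine ⟨hS.2.2 x hx.1 y hy.1, hLL (comm_mem_pw hG hKn hKW hx.2 hy.2)⟩
    have hIH : (K0 ⊓ L).relIndex (H ⊓ K) ≤ L.relIndex K :=
      ih _ hcardK K rfl hKn hKW _ _ inf_le_right hS1
    -- the power map
    let φ : N →* G ⧸ L :=
      { toFun := fun x => ((x : G) : G ⧸ L) ^ p
        map_one' := by simp
        map_mul' := by
          intro x y
          have c : Commute ((x : G) : G ⧸ L) ((y : G) : G ⧸ L) :=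
            mem_iff_commute.mp (hcom x x.2 y y.2)
          change (((x * y : N) : G) : G ⧸ L) ^ p = _
          rw [Subgroup.coe_mul, QuotientGroup.mk_mul, c.mul_pow] }
    set P := rootS p hLn hcom with hP
    have hPN : P ≤ N := fun x hx => hx.1
    have hKP : K ≤ P := fun x hx => ⟨hKN hx, pow_mem_pw hx⟩
    have hker : φ.ker = P.subgroupOf N := by
      ext x
      rw [MonoidHom.mem_ker, Subgroup.mem_subgroupOf]
      change ((x : G) : G ⧸ L) ^ p = 1 ↔ ((x : G) ∈ N ∧ (x : G) ^ p ∈ L)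
      rw [← QuotientGroup.mk_pow, QuotientGroup.eq_one_iff]
      exact ⟨fun h => ⟨x.2, h⟩, fun h => h.2⟩
    have hmk : ∀ T : Subgroup G, L.relIndex T = Nat.card (T.map (QuotientGroup.mk' L)) := by
      intro T
      rw [← Subgroup.relIndex_ker, QuotientGroup.ker_mk']
    -- (c)
    have hc : P.relIndex H ≤ (K0 ⊓ L).relIndex (K0 ⊓ K) := by
      have e1 : P.relIndex H = Nat.card ((H.subgroupOf N).map φ) := by
        rw [← Subgroup.relIndex_ker, hker, Subgroup.relIndex_subgroupOf hHN]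
      have e2 : (K0 ⊓ L).relIndex (K0 ⊓ K) = L.relIndex (K0 ⊓ K) := by
        have : K0 ⊓ L = L ⊓ (K0 ⊓ K) := by
          rw [inf_comm K0 K, ← inf_assoc, inf_eq_left.mpr hLK, inf_comm]
        rw [this, Subgroup.inf_relIndex_right]
      rw [e1, e2, hmk]
      refine Subgroup.card_le_of_le ?_
      rintro _ ⟨x, hx, rfl⟩
      refine ⟨(x : G) ^ p, ⟨hS.2.1 _ ?_, pow_mem_pw x.2⟩, ?_⟩
      · exact Subgroup.mem_subgroupOf.mp hx
      · rfl
    -- (d)
    have hd : L.relIndex K ≤ P.relIndex N := by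
      have e1 : P.relIndex N = Nat.card φ.range := by
        rw [← Subgroup.index_ker, hker]
        rfl
      rw [e1, hmk]
      refine Subgroup.card_le_of_le ?_
      rw [Subgroup.map_le_iff_le_comap, hK, pw, Subgroup.closure_le]
      rintro _ ⟨x, hx, rfl⟩
      exact ⟨⟨x, hx⟩, rfl⟩
    -- chain
    have s1 : K0.relIndex H ≤ (K0 ⊓ K).relIndex H := relIndex_anti_left inf_le_left _
    have s2 : (K0 ⊓ K).relIndex (H ⊓ K) * (H ⊓ K).relIndex H = (K0 ⊓ K).relIndex H :=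
      Subgroup.relIndex_mul_relIndex _ _ _ (inf_le_inf_right K hS.1) inf_le_left
    have s3 : (H ⊓ K).relIndex (H ⊓ P) * (H ⊓ P).relIndex H = (H ⊓ K).relIndex H :=
      Subgroup.relIndex_mul_relIndex _ _ _ (inf_le_inf_left H hKP) inf_le_left
    have s4 : (H ⊓ K).relIndex (H ⊓ P) ≤ K.relIndex P := by
      have : H ⊓ K = K ⊓ (H ⊓ P) := by
        rw [inf_comm H P, ← inf_assoc, inf_eq_left.mpr hKP, inf_comm]
      rw [this, Subgroup.inf_relIndex_right]
      exact relIndex_mono_right K inf_le_right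
    have s5 : (H ⊓ P).relIndex H = P.relIndex H := Subgroup.inf_relIndex_left H P
    have s6 : (K0 ⊓ L).relIndex (K0 ⊓ K) * (K0 ⊓ K).relIndex (H ⊓ K) =
        (K0 ⊓ L).relIndex (H ⊓ K) :=
      Subgroup.relIndex_mul_relIndex _ _ _ (inf_le_inf_left K0 hLK) (inf_le_inf_right K hS.1)
    have s7 : K.relIndex P * P.relIndex N = K.relIndex N :=
      Subgroup.relIndex_mul_relIndex _ _ _ hKP hPN
    calc K0.relIndex H ≤ (K0 ⊓ K).relIndex (H ⊓ K) *
          ((H ⊓ K).relIndex (H ⊓ P) * P.relIndex H) := by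
            rw [← s5, s3, s2]; exact s1
      _ ≤ (K0 ⊓ K).relIndex (H ⊓ K) * (K.relIndex P * (K0 ⊓ L).relIndex (K0 ⊓ K)) :=
            Nat.mul_le_mul_left _ (Nat.mul_le_mul s4 hc)
      _ = K.relIndex P * ((K0 ⊓ L).relIndex (K0 ⊓ K) * (K0 ⊓ K).relIndex (H ⊓ K)) := by ring
      _ = K.relIndex P * (K0 ⊓ L).relIndex (H ⊓ K) := by rw [s6]
      _ ≤ K.relIndex P * P.relIndex N := Nat.mul_le_mul_left _ (hIH.trans hd)
      _ = K.relIndex N := s7

/-- elements acting with shift `i` on the central chains of all normal elementary abelian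
sections. -/
def Eall (G : Type*) [Group G] (p i : ℕ) : Subgroup G where
  carrier := {g | ∀ Y X : Subgroup G, ∀ (hY : Y.Normal) (hX : X.Normal), ElSec p Y X →
    ∀ j, g ∈ actS (ser Y X j) (ser Y X (j + i)) (ser_normal hY hX _)}
  mul_mem' := by
    intro a b ha hb Y X hY hX hS j
    exact Subgroup.mul_mem _ (ha Y X hY hX hS j) (hb Y X hY hX hS j)
  one_mem' := by
    intro Y X hY hX _ j
    exact Subgroup.one_mem _
  inv_mem' := by
    intro a ha Y X hY hX hS j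
    exact Subgroup.inv_mem _ (ha Y X hY hX hS j)

theorem Eall_one (p : ℕ) : Eall G p 1 = ⊤ := by
  rw [Subgroup.eq_top_iff']
  intro g Y X hY hX _ j
  exact act_ser Y X g j

theorem Eall_elsec (p i : ℕ) : ElSec p (Eall G p (2 * i)) (Eall G p i) := by
  have i2 : ∀ j, j + 2 * i = (j + i) + i := fun j => by omega
  refine ⟨?_, ?_, ?_⟩
  · intro g hg Y X hY hX hS j
    exact Act.mono (hg Y X hY hX hS j) (ser_anti hY hX hS.1 (by omega))
  · intro g hg Y X hY hX hS j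
    obtain ⟨hYX, hpow, hcom⟩ := hS
    have hXall : ∀ j, ser Y X j ≤ X := fun j => ser_anti hY hX hYX (Nat.zero_le j)
    have := ser_normal hY hX j
    have := ser_normal hY hX (j + i)
    have := ser_normal hY hX (j + 2 * i)
    refine two_step_pow (Z := ser Y X (j + i)) ?_ (hg Y X hY hX ⟨hYX, hpow, hcom⟩ j) ?_
    · intro z hz
      exact le_ser hYX _ (hpow z (hXall _ hz))
    · rw [i2]; exact hg Y X hY hX ⟨hYX, hpow, hcom⟩ (j + i)
  · intro g hg g' hg' Y X hY hX hS j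
    obtain ⟨hYX, hpow, hcom⟩ := hS
    have hXall : ∀ j, ser Y X j ≤ X := fun j => ser_anti hY hX hYX (Nat.zero_le j)
    have := ser_normal hY hX j
    have := ser_normal hY hX (j + i)
    have := ser_normal hY hX (j + 2 * i)
    refine two_step_comm (Z := ser Y X (j + i)) ?_ (hg Y X hY hX ⟨hYX, hpow, hcom⟩ j) ?_
      (hg' Y X hY hX ⟨hYX, hpow, hcom⟩ j) ?_
    · intro z hz z' hz'
      exact le_ser hYX _ (hcom z (hXall _ hz) z' (hXall _ hz'))
    · rw [i2]; exact hg Y X hY hX ⟨hYX, hpow, hcom⟩ (j + i)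
    · rw [i2]; exact hg' Y X hY hX ⟨hYX, hpow, hcom⟩ (j + i)

theorem exists_d [Finite G] {p : ℕ} [hp : Fact p.Prime] (hG : IsPGroup p G) :
    ∃ d, (∀ Y X : Subgroup G, Y.Normal → X.Normal → ElSec p Y X → Y.relIndex X ≤ p ^ d) ∧
      ∃ Y X : Subgroup G, Y.Normal ∧ X.Normal ∧ ElSec p Y X ∧ Y.relIndex X = p ^ d := by
  let S : Set (Subgroup G × Subgroup G) := {q | q.1.Normal ∧ q.2.Normal ∧ ElSec p q.1 q.2}
  have hne : S.Nonempty := by
    refine ⟨(⊥, ⊥), inferInstance, inferInstance, le_rfl, ?_, ?_⟩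
    · intro h hh
      rw [Subgroup.mem_bot] at hh ⊢
      rw [hh, one_pow]
    · intro h hh h' hh'
      rw [Subgroup.mem_bot] at hh hh' ⊢
      rw [hh, hh']
      simp
  obtain ⟨q, hq, hmax⟩ := Set.exists_max_image S (fun q => q.1.relIndex q.2) (Set.toFinite S) hne
  obtain ⟨d, hd⟩ := relIndex_eq_pow hG q.1 q.2
  refine ⟨d, ?_, q.1, q.2, hq.1, hq.2.1, hq.2.2, hd⟩
  intro Y X hY hX hS
  rw [← hd]
  exact hmax (Y, X) ⟨hY, hX, hS⟩

theorem clog_bound {d m s : ℕ} (hsm : s ≤ m) (hd : d ≤ m + s * Nat.clog 2 (d + 1)) :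
    Nat.clog 2 (d + 1) ≤ 2 * Nat.clog 2 m + 3 := by
  by_contra hcon
  set L := Nat.clog 2 (d + 1) with hL
  set l := Nat.clog 2 m with hl
  obtain ⟨t, ht⟩ : ∃ t, L = 2 * l + 4 + t := ⟨L - (2 * l + 4), by omega⟩
  have hm : m ≤ 2 ^ l := Nat.le_pow_clog one_lt_two m
  have hd1 : 1 < d + 1 := by
    by_contra h
    have hd0 : d = 0 := by omega
    rw [hd0] at hL
    simp at hL
    omega
  have h1 : 2 ^ (L - 1) < d + 1 := by
    have := Nat.pow_pred_clog_lt_self one_lt_two hd1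
    simpa [← hL] using this
  have h2 : d ≤ 2 ^ l * (1 + L) := by
    calc d ≤ m + s * L := hd
      _ ≤ 2 ^ l + 2 ^ l * L := Nat.add_le_add hm (Nat.mul_le_mul_right _ (hsm.trans hm))
      _ = _ := by ring
  have h3 : 2 ^ (L - 1) = 2 ^ l * (2 ^ (l + t) * 8) := by
    rw [ht, show 2 * l + 4 + t - 1 = l + (l + t + 3) by omega, pow_add, pow_add 2 (l + t) 3]
    norm_num
  have h4 : 2 ^ l * (2 ^ (l + t) * 8) ≤ 2 ^ l * (1 + L) := by
    rw [← h3]; omega
  have h5 : 2 ^ (l + t) * 8 ≤ 1 + L := Nat.le_of_mul_le_mul_left h4 (pow_pos two_pos l)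
  have h6 : l + t < 2 ^ (l + t) := Nat.lt_two_pow_self
  omega

/-- main bound, first factor of smaller rank. -/
theorem main_rk [Finite G] {p : ℕ} [hp : Fact p.Prime] (hG : IsPGroup p G)
    {A B : Subgroup G} (hAB : ∀ g : G, ∃ a ∈ A, ∃ b ∈ B, a * b = g) {s m : ℕ} (hsm : s ≤ m)
    (hA : RkLE p A s) (hB : RkLE p B m) :
    RkLE p (⊤ : Subgroup G) (2 * m + s * (7 + 4 * Nat.clog 2 m)) := by
  obtain ⟨d, hd, Y, X, hY, hX, hS, hYX⟩ := exists_d hG
  set L1 := Nat.clog 2 (d + 1) with hL1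
  have hdb : d ≤ m + s * L1 := by
    have h1 := sec_bound hG hAB hA hB hY hX hS hYX.le
    rw [hYX] at h1
    exact (Nat.pow_le_pow_iff_right hp.out.one_lt).mp h1
  have hLb : L1 ≤ 2 * Nat.clog 2 m + 3 := clog_bound hsm hdb
  set W := trivS G (p ^ 2) with hW
  set V := trivS G p with hV
  have hWn : W.Normal := trivS_normal _
  -- the rank of W
  have hWrank : ∀ K0 H : Subgroup G, ElSec p K0 H → (K0 ⊓ W).relIndex (H ⊓ W) ≤ p ^ d := by
    intro K0 H hKH
    refine (rank_strong hG _ W rfl hWn le_rfl _ _ inf_le_right (hKH.inf W)).trans ?_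
    refine hd _ _ (pw_normal hWn p) hWn ⟨pw_le, fun x hx => pow_mem_pw hx, ?_⟩
    intro x hx y hy
    exact pw_le (comm_mem_pw hG hWn le_rfl hx hy)
  -- V has small index in A
  have hVA : (A ⊓ V).relIndex A ≤ p ^ (s * L1) := by
    have h1 := (dyadic hA (fun i => A ⊓ Eall G p i) (fun i _ => by
      have := (Eall_elsec (G := G) p i).inf A
      rw [inf_comm A, inf_comm A]
      exact this) inf_le_left L1).2
    have h2 : A ⊓ Eall G p 1 = A := by rw [Eall_one, inf_top_eq]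
    change (A ⊓ Eall G p (2 ^ L1)).relIndex (A ⊓ Eall G p 1) ≤ _ at h1
    rw [h2] at h1
    refine (relIndex_anti_left (inf_le_inf_left A ?_) A).trans h1
    intro g hg Y' X' hY' hX' hS'
    have h3 : Act g (ser Y' X' 0) (ser Y' X' (0 + 2 ^ L1)) := hg Y' X' hY' hX' hS' 0
    have h4 : ser Y' X' (0 + 2 ^ L1) ≤ Y' := by
      have h5 : d ≤ 0 + 2 ^ L1 := by
        have : d + 1 ≤ 2 ^ L1 := Nat.le_pow_clog one_lt_two _
        omega
      have h6 := ser_anti hY' hX' hS'.1 h5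
      rwa [ser_end hG hY' hX' hS'.1 (hd _ _ hY' hX' hS')] at h6
    exact h3.mono h4
  -- W has small index in A
  have hWA : W.relIndex A ≤ p ^ (s + s * L1) := by
    have h1 : (A ⊓ W).relIndex (A ⊓ V) ≤ p ^ s := by
      refine hA _ _ inf_le_left ?_
      have := (elSec_trivS (G := G) p).inf A
      rw [inf_comm A, inf_comm A]
      exact this
    have h2 : (A ⊓ W).relIndex (A ⊓ V) * (A ⊓ V).relIndex A = (A ⊓ W).relIndex A :=
      Subgroup.relIndex_mul_relIndex _ _ _ (inf_le_inf_left A (trivS_sq_le p)) inf_le_left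
    rw [← Subgroup.inf_relIndex_left, ← h2, pow_add]
    exact Nat.mul_le_mul h1 hVA
  set T := B ⊔ W with hT
  have hTidx : T.index ≤ p ^ (s + s * L1) := by
    rw [← Subgroup.relIndex_top_right]
    refine (relIndex_le_of_cover (U := A) le_top ?_).trans
      ((relIndex_anti_left le_sup_right A).trans hWA)
    intro t _
    obtain ⟨a, ha, b, hb, rfl⟩ := hAB t
    refine ⟨a, ha, ?_⟩
    have : a⁻¹ * (a * b) = b := by group
    rw [this]
    exact Subgroup.mem_sup_left hb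
  intro K0 H _ hKH
  have h1 := relIndex_le_sup_mul_inf hKH.1 W
  have h2 := hWrank K0 H hKH
  have h3 : (K0 ⊔ W).relIndex (H ⊔ W) ≤ ((K0 ⊔ W) ⊓ T).relIndex ((H ⊔ W) ⊓ T) * T.index :=
    relIndex_le_inf_mul_index T
  -- the section (H W) / (K0 W)
  have hsup : ElSec p (K0 ⊔ W) (H ⊔ W) := by
    refine ⟨sup_le_sup_right hKH.1 W, ?_, ?_⟩
    · intro x hx
      obtain ⟨h, hh, w, hw, rfl⟩ := (Subgroup.mem_sup_of_normal_right).mp hx
      have e : ((h * w : G) : G ⧸ W) = (h : G ⧸ W) := by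
        rw [QuotientGroup.mk_mul, (QuotientGroup.eq_one_iff _).mpr hw, mul_one]
      have e2 : (((h * w) ^ p : G) : G ⧸ W) = ((h ^ p : G) : G ⧸ W) := by
        rw [QuotientGroup.mk_pow, e, ← QuotientGroup.mk_pow]
      have e3 : (h ^ p)⁻¹ * (h * w) ^ p ∈ W := QuotientGroup.eq.mp e2.symm
      have e4 : (h * w) ^ p = h ^ p * ((h ^ p)⁻¹ * (h * w) ^ p) := by group
      rw [e4]
      exact Subgroup.mul_mem _ (Subgroup.mem_sup_left (hKH.2.1 h hh)) (Subgroup.mem_sup_right e3)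
    · intro x hx x' hx'
      obtain ⟨h, hh, w, hw, rfl⟩ := (Subgroup.mem_sup_of_normal_right).mp hx
      obtain ⟨h', hh', w', hw', rfl⟩ := (Subgroup.mem_sup_of_normal_right).mp hx'
      have e : ((h * w : G) : G ⧸ W) = (h : G ⧸ W) := by
        rw [QuotientGroup.mk_mul, (QuotientGroup.eq_one_iff _).mpr hw, mul_one]
      have e' : ((h' * w' : G) : G ⧸ W) = (h' : G ⧸ W) := by
        rw [QuotientGroup.mk_mul, (QuotientGroup.eq_one_iff _).mpr hw', mul_one]
      have e2 : ((⁅h * w, h' * w'⁆ : G) : G ⧸ W) = ((⁅h, h'⁆ : G) : G ⧸ W) := by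
        have e5 : ∀ a b : G, ((⁅a, b⁆ : G) : G ⧸ W) =
            (a : G ⧸ W) * (b : G ⧸ W) * (a : G ⧸ W)⁻¹ * (b : G ⧸ W)⁻¹ := fun a b => rfl
        rw [e5, e5, e, e']
      have e3 : ⁅h, h'⁆⁻¹ * ⁅h * w, h' * w'⁆ ∈ W := QuotientGroup.eq.mp e2.symm
      have e4 : ⁅h * w, h' * w'⁆ = ⁅h, h'⁆ * (⁅h, h'⁆⁻¹ * ⁅h * w, h' * w'⁆) := by group
      rw [e4]
      exact Subgroup.mul_mem _ (Subgroup.mem_sup_left (hKH.2.2 h hh h' hh'))
        (Subgroup.mem_sup_right e3)
  have h4 : ((K0 ⊔ W) ⊓ T).relIndex ((H ⊔ W) ⊓ T) ≤ p ^ m := by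
    have h5 : ((K0 ⊔ W) ⊓ T).relIndex ((H ⊔ W) ⊓ T) ≤
        ((K0 ⊔ W) ⊓ T).relIndex ((H ⊔ W) ⊓ B) := by
      refine relIndex_le_of_cover (inf_le_inf_left _ le_sup_left) ?_
      intro t ht
      obtain ⟨b, hb, w, hw, rfl⟩ := (Subgroup.mem_sup_of_normal_right).mp ht.2
      have hb' : b ∈ H ⊔ W := by
        have : b * w * w⁻¹ ∈ H ⊔ W :=
          Subgroup.mul_mem _ ht.1 (Subgroup.inv_mem _ (Subgroup.mem_sup_right hw))
        simpa using this
      refine ⟨b, ⟨hb', hb⟩, ?_⟩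
      have : b⁻¹ * (b * w) = w := by group
      rw [this]
      exact ⟨Subgroup.mem_sup_right hw, Subgroup.mem_sup_right hw⟩
    refine h5.trans ?_
    have h6 : ((K0 ⊔ W) ⊓ T).relIndex ((H ⊔ W) ⊓ B) ≤
        ((K0 ⊔ W) ⊓ B).relIndex ((H ⊔ W) ⊓ B) :=
      relIndex_anti_left (inf_le_inf_left _ le_sup_left) _
    exact h6.trans (hB _ _ inf_le_right (hsup.inf B))
  calc K0.relIndex H ≤ (K0 ⊔ W).relIndex (H ⊔ W) * (K0 ⊓ W).relIndex (H ⊓ W) := h1
    _ ≤ (p ^ m * p ^ (s + s * L1)) * p ^ d :=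
        Nat.mul_le_mul (h3.trans (Nat.mul_le_mul h4 hTidx)) h2
    _ = p ^ (m + (s + s * L1) + d) := by rw [← pow_add, ← pow_add]
    _ ≤ p ^ (2 * m + s * (7 + 4 * Nat.clog 2 m)) := by
        refine Nat.pow_le_pow_right hp.out.pos ?_
        have h7 : s * L1 ≤ s * (2 * Nat.clog 2 m + 3) := Nat.mul_le_mul_left s hLb
        nlinarith

end MP_b83a82_al
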