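import Pool.Agent.Lib.MP_b83a82_al.Series

/-! The subgroup `W` acting trivially on all normal abelian sections of exponent `p ^ 2`. -/

namespace MP_b83a82_al

open scoped commutatorElement

variable {G : Type*} [Group G]

/-- `X / Y` is abelian of exponent dividing `n`. -/
def AbSec (n : ℕ) (Y X : Subgroup G) : Prop :=
  Y ≤ X ∧ (∀ x ∈ X, x ^ n ∈ Y) ∧ ∀ x ∈ X, ∀ x' ∈ X, ⁅x, x'⁆ ∈ Y

/-- elements acting trivially on all normal abelian sections of exponent `n`. -/
def trivS (G : Type*) [Group G] (n : ℕ) : Subgroup G where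
  carrier := {g | ∀ Y X : Subgroup G, Y.Normal → X.Normal → AbSec n Y X → Act g X Y}
  mul_mem' := by
    intro a b ha hb Y X hY hX hS
    exact (actS X Y hY).mul_mem (ha Y X hY hX hS) (hb Y X hY hX hS)
  one_mem' := by
    intro Y X hY hX _
    exact (actS X Y hY).one_mem
  inv_mem' := by
    intro a ha Y X hY hX hS
    exact (actS X Y hY).inv_mem (ha Y X hY hX hS)

theorem trivS_normal (n : ℕ) : (trivS G n).Normal := by
  constructor
  intro g hg c Y X hY hX hS u hu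
  have hu' : c⁻¹ * u * c ∈ X := by simpa using hX.conj_mem u hu c⁻¹
  have h1 := hg Y X hY hX hS _ hu'
  have e : ⁅c * g * c⁻¹, u⁆ = c * ⁅g, c⁻¹ * u * c⁆ * c⁻¹ := by
    simp only [commutatorElement_def]; group
  rw [e]
  exact hY.conj_mem _ h1 c

theorem ElSec.abSec {p : ℕ} {Y X : Subgroup G} (h : ElSec p Y X) : AbSec (p ^ 2) Y X := by
  refine ⟨h.1, ?_, h.2.2⟩
  intro x hx
  rw [pow_two, pow_mul]
  exact Y.pow_mem (h.2.1 x hx) p

theorem trivS_sq_le (p : ℕ) : trivS G (p ^ 2) ≤ trivS G p := by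
  intro g hg Y X hY hX hS
  exact hg Y X hY hX (ElSec.abSec (p := p) hS)

/-- the elements of `X` whose `p`-th power lies in `Y`, if `X / Y` is abelian. -/
def rootS (p : ℕ) {Y X : Subgroup G} (hY : Y.Normal)
    (hcom : ∀ x ∈ X, ∀ x' ∈ X, ⁅x, x'⁆ ∈ Y) : Subgroup G where
  carrier := {x | x ∈ X ∧ x ^ p ∈ Y}
  mul_mem' := by
    rintro a b ⟨ha, ha'⟩ ⟨hb, hb'⟩
    refine ⟨X.mul_mem ha hb, ?_⟩
    have := hY
    have c : Commute (a : G ⧸ Y) (b : G ⧸ Y) := mem_iff_commute.mp (hcom a ha b hb)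
    rw [← QuotientGroup.eq_one_iff, QuotientGroup.mk_pow, QuotientGroup.mk_mul, c.mul_pow,
      ← QuotientGroup.mk_pow, ← QuotientGroup.mk_pow, (QuotientGroup.eq_one_iff _).mpr ha',
      (QuotientGroup.eq_one_iff _).mpr hb', one_mul]
  one_mem' := ⟨X.one_mem, by simp⟩
  inv_mem' := by
    rintro a ⟨ha, ha'⟩
    exact ⟨X.inv_mem ha, by rw [inv_pow]; exact Y.inv_mem ha'⟩

theorem mem_rootS {p : ℕ} {Y X : Subgroup G} {hY : Y.Normal}
    {hcom : ∀ x ∈ X, ∀ x' ∈ X, ⁅x, x'⁆ ∈ Y} {x : G} :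
    x ∈ rootS p hY hcom ↔ x ∈ X ∧ x ^ p ∈ Y := Iff.rfl

theorem rootS_normal {p : ℕ} {Y X : Subgroup G} (hY : Y.Normal) (hX : X.Normal)
    (hcom : ∀ x ∈ X, ∀ x' ∈ X, ⁅x, x'⁆ ∈ Y) : (rootS p hY hcom).Normal := by
  constructor
  intro x hx g
  refine ⟨hX.conj_mem x hx.1 g, ?_⟩
  rw [conj_pow]
  exact hY.conj_mem _ hx.2 g

theorem elSec_trivS (p : ℕ) : ElSec p (trivS G (p ^ 2)) (trivS G p) := by
  refine ⟨trivS_sq_le p, ?_, ?_⟩
  · intro g hg Y X hY hX hS
    obtain ⟨hYX, hpow, hcom⟩ := hS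
    have hZ := rootS_normal (p := p) hY hX hcom
    have h1 : ElSec p (rootS p hY hcom) X := by
      refine ⟨fun x hx => hx.1, ?_, ?_⟩
      · intro x hx
        refine ⟨X.pow_mem hx p, ?_⟩
        rw [← pow_mul, ← pow_two]
        exact hpow x hx
      · intro x hx x' hx'
        have h2 := hcom x hx x' hx'
        exact ⟨hYX h2, Y.pow_mem h2 p⟩
    have h2 : ElSec p Y (rootS p hY hcom) := by
      refine ⟨fun y hy => ⟨hYX hy, Y.pow_mem hy p⟩, fun x hx => hx.2, ?_⟩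
      intro x hx x' hx'
      exact hcom x hx.1 x' hx'.1
    exact two_step_pow (Z := rootS p hY hcom) h2.2.1 (hg _ _ hZ hX h1) (hg _ _ hY hZ h2)
  · intro g hg g' hg' Y X hY hX hS
    obtain ⟨hYX, hpow, hcom⟩ := hS
    have hZ := rootS_normal (p := p) hY hX hcom
    have h1 : ElSec p (rootS p hY hcom) X := by
      refine ⟨fun x hx => hx.1, ?_, ?_⟩
      · intro x hx
        refine ⟨X.pow_mem hx p, ?_⟩
        rw [← pow_mul, ← pow_two]
        exact hpow x hx
      · intro x hx x' hx'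
        have h2 := hcom x hx x' hx'
        exact ⟨hYX h2, Y.pow_mem h2 p⟩
    have h2 : ElSec p Y (rootS p hY hcom) := by
      refine ⟨fun y hy => ⟨hYX hy, Y.pow_mem hy p⟩, fun x hx => hx.2, ?_⟩
      intro x hx x' hx'
      exact hcom x hx.1 x' hx'.1
    exact two_step_comm (Z := rootS p hY hcom) h2.2.2 (hg _ _ hZ hX h1) (hg _ _ hY hZ h2)
      (hg' _ _ hZ hX h1) (hg' _ _ hY hZ h2)

/-- the subgroup generated by the `n`-th powers of elements of `N`. -/
def pw (N : Subgroup G) (n : ℕ) : Subgroup G := Subgroup.closure {y | ∃ x ∈ N, x ^ n = y}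

theorem pow_mem_pw {N : Subgroup G} {n : ℕ} {x : G} (hx : x ∈ N) : x ^ n ∈ pw N n :=
  Subgroup.subset_closure ⟨x, hx, rfl⟩

theorem pw_le {N : Subgroup G} {n : ℕ} : pw N n ≤ N := by
  rw [pw, Subgroup.closure_le]
  rintro _ ⟨x, hx, rfl⟩
  exact N.pow_mem hx n

theorem pw_normal {N : Subgroup G} (hN : N.Normal) (n : ℕ) : (pw N n).Normal := by
  constructor
  intro y hy g
  induction hy using Subgroup.closure_induction with
  | mem y hy =>
    obtain ⟨x, hx, rfl⟩ := hy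
    rw [← conj_pow]
    exact pow_mem_pw (hN.conj_mem x hx g)
  | one => simp
  | mul a b _ _ ha hb =>
    have : g * (a * b) * g⁻¹ = (g * a * g⁻¹) * (g * b * g⁻¹) := by group
    rw [this]
    exact (pw N n).mul_mem ha hb
  | inv a _ ha =>
    have : g * a⁻¹ * g⁻¹ = (g * a * g⁻¹)⁻¹ := by group
    rw [this]
    exact (pw N n).inv_mem ha

/-- key property of `W = trivS G n`: `[W, N] ≤ N^n` for all `G`-normal `N ≤ W`. -/
theorem trivS_comm [Finite G] {p n : ℕ} [hp : Fact p.Prime] (hG : IsPGroup p G)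
    {N : Subgroup G} (hN : N.Normal) (hNW : N ≤ trivS G n) {g : G} (hg : g ∈ trivS G n) :
    Act g N (pw N n) := by
  classical
  set Y := pw N n with hY
  have hYn : Y.Normal := pw_normal hN n
  let F : Set (Subgroup G) := {M | M.Normal ∧ Y ≤ M ∧ M ≤ N ∧ ∀ x ∈ M, ∀ x' ∈ M, ⁅x, x'⁆ ∈ Y}
  have hF : F.Finite := Set.toFinite F
  have hne : F.Nonempty := by
    refine ⟨Y, hYn, le_rfl, pw_le, ?_⟩
    intro x hx x' hx'
    rw [commutatorElement_def]
    exact Y.mul_mem (Y.mul_mem (Y.mul_mem hx hx') (Y.inv_mem hx)) (Y.inv_mem hx')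
  obtain ⟨M, hM⟩ := hF.exists_maximal hne
  obtain ⟨hMn, hYM, hMN, hMab⟩ := hM.prop
  have hMsec : AbSec n Y M := ⟨hYM, fun x hx => pow_mem_pw (hMN hx), hMab⟩
  have hMN' : M = N := by
    by_contra hne'
    obtain ⟨z, hzN, hzM, hz⟩ := exists_central_step hG hMn hN (lt_of_le_of_ne hMN hne')
    set M1 := M ⊔ Subgroup.zpowers z with hM1
    have hM1n : M1.Normal := by
      constructor
      intro y hy c
      obtain ⟨m, hm, w, hw, rfl⟩ := (Subgroup.mem_sup_of_normal_left).mp hy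
      obtain ⟨k, rfl⟩ := Subgroup.mem_zpowers_iff.mp hw
      have e : c * (m * z ^ k) * c⁻¹ = (c * m * c⁻¹) * (c * z * c⁻¹) ^ k := by
        rw [conj_zpow]; group
      rw [e]
      have e2 : c * z * c⁻¹ = ⁅c, z⁆ * z := by simp only [commutatorElement_def]; group
      refine M1.mul_mem (Subgroup.mem_sup_left (hMn.conj_mem m hm c)) (M1.zpow_mem ?_ k)
      rw [e2]
      exact M1.mul_mem (Subgroup.mem_sup_left (hz c))
        (Subgroup.mem_sup_right (Subgroup.mem_zpowers z))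
    have hM1N : M1 ≤ N := sup_le hMN (by rw [Subgroup.zpowers_le]; exact hzN)
    have hM1F : M1 ∈ F := by
      refine ⟨hM1n, hYM.trans le_sup_left, hM1N, ?_⟩
      intro x hx x' hx'
      obtain ⟨m, hm, w, hw, rfl⟩ := (Subgroup.mem_sup_of_normal_left).mp hx
      obtain ⟨k, rfl⟩ := Subgroup.mem_zpowers_iff.mp hw
      obtain ⟨m', hm', w', hw', rfl⟩ := (Subgroup.mem_sup_of_normal_left).mp hx'
      obtain ⟨k', rfl⟩ := Subgroup.mem_zpowers_iff.mp hw'
      have hact : ∀ v ∈ N, ∀ u ∈ M, Commute (v : G ⧸ Y) (u : G ⧸ Y) := fun v hv u hu =>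
        mem_iff_commute.mp (hNW hv Y M hYn hMn hMsec u hu)
      have c1 : Commute (z : G ⧸ Y) (m : G ⧸ Y) := hact z hzN m hm
      have c2 : Commute (z : G ⧸ Y) (m' : G ⧸ Y) := hact z hzN m' hm'
      have c3 : Commute (m : G ⧸ Y) (m' : G ⧸ Y) := mem_iff_commute.mp (hMab m hm m' hm')
      rw [mem_iff_commute]
      simp only [QuotientGroup.mk_mul, QuotientGroup.mk_zpow]
      exact ((c3.mul_right (c1.symm.zpow_right k'))).mul_left
        ((c2.zpow_left k).mul_right ((Commute.refl _).zpow_zpow k k'))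
    have hle : M1 ≤ M := hM.le_of_ge hM1F le_sup_left
    exact hzM (hle (Subgroup.mem_sup_right (Subgroup.mem_zpowers z)))
  rw [hMN'] at hMsec
  exact hg Y N hYn hN hMsec

theorem pw_lt [Finite G] {p : ℕ} [hp : Fact p.Prime] (hG : IsPGroup p G) {N : Subgroup G}
    (hN : N ≠ ⊥) : pw N p < N := by
  refine lt_of_le_of_ne pw_le ?_
  intro heq
  obtain ⟨n, hn⟩ := IsPGroup.iff_card.mp (hG.to_subgroup N)
  have hn0 : n ≠ 0 := by
    rintro rfl
    rw [pow_zero] at hn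
    exact hN (Subgroup.card_eq_one.mp hn)
  obtain ⟨m, rfl⟩ := Nat.exists_eq_succ_of_ne_zero hn0
  obtain ⟨K, hK⟩ := Sylow.exists_subgroup_card_pow_prime (G := N) p (n := m)
    (by rw [hn]; exact pow_dvd_pow p (Nat.le_succ m))
  have hidx : K.index = p := by
    have h1 := K.card_mul_index
    rw [hK, hn, Nat.succ_eq_add_one, pow_succ] at h1
    exact Nat.eq_of_mul_eq_mul_left (pow_pos hp.out.pos m) h1
  have hKn : K.Normal := by
    refine Subgroup.normal_of_index_eq_minFac_card ?_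
    rw [hidx, hn, Nat.pow_minFac (Nat.succ_ne_zero m), hp.out.minFac_eq]
  have hle : pw N p ≤ K.map N.subtype := by
    rw [pw, Subgroup.closure_le]
    rintro _ ⟨x, hx, rfl⟩
    refine ⟨(⟨x, hx⟩ : N) ^ p, ?_, by simp⟩
    rw [SetLike.mem_coe, ← QuotientGroup.eq_one_iff, QuotientGroup.mk_pow, ← hidx,
      Subgroup.index_eq_card]
    exact pow_card_eq_one'
  rw [heq] at hle
  have hKtop : K = ⊤ := by
    rw [Subgroup.eq_top_iff']
    intro x
    obtain ⟨y, hy, hxy⟩ := hle x.2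
    have : y = x := Subtype.ext hxy
    rwa [← this]
  rw [hKtop, Subgroup.index_top] at hidx
  exact hp.out.one_lt.ne hidx

end MP_b83a82_al
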