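import Pool.Agent.Lib.MP_b83a82_al.Core

/-! The descending central chain of a normal section and the bound for normal sections. -/

namespace MP_b83a82_al

open scoped commutatorElement

variable {G : Type*} [Group G]

/-- descending central chain from `X` to `Y`. -/
def ser (Y X : Subgroup G) : ℕ → Subgroup G
  | 0 => X
  | j + 1 => ⁅ser Y X j, (⊤ : Subgroup G)⁆ ⊔ Y

theorem ser_normal {Y X : Subgroup G} (hY : Y.Normal) (hX : X.Normal) (j : ℕ) :
    (ser Y X j).Normal := by
  induction j with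
  | zero => exact hX
  | succ j ih =>
    have := ih
    change (⁅ser Y X j, (⊤ : Subgroup G)⁆ ⊔ Y).Normal
    infer_instance

theorem le_ser {Y X : Subgroup G} (hYX : Y ≤ X) (j : ℕ) : Y ≤ ser Y X j := by
  cases j with
  | zero => exact hYX
  | succ j => exact le_sup_right

theorem ser_succ_le {Y X : Subgroup G} (hY : Y.Normal) (hX : X.Normal) (hYX : Y ≤ X) (j : ℕ) :
    ser Y X (j + 1) ≤ ser Y X j := by
  have := ser_normal hY hX j
  exact sup_le (Subgroup.commutator_le_left _ _) (le_ser hYX j)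

theorem ser_anti {Y X : Subgroup G} (hY : Y.Normal) (hX : X.Normal) (hYX : Y ≤ X) :
    Antitone (ser Y X) := antitone_nat_of_succ_le (ser_succ_le hY hX hYX)

theorem act_ser (Y X : Subgroup G) (g : G) (j : ℕ) :
    Act g (ser Y X j) (ser Y X (j + 1)) := by
  intro u hu
  have h1 : ⁅u, g⁆ ∈ ⁅ser Y X j, (⊤ : Subgroup G)⁆ :=
    Subgroup.commutator_mem_commutator hu (Subgroup.mem_top g)
  have h2 : ⁅g, u⁆ = ⁅u, g⁆⁻¹ := by simp only [commutatorElement_def]; group
  rw [h2]
  exact Subgroup.inv_mem _ (Subgroup.mem_sup_left h1)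

theorem ser_eq_of_stable [Group.IsNilpotent G] {Y X : Subgroup G} (hY : Y.Normal)
    (hYX : Y ≤ X) {j : ℕ} (h : ser Y X (j + 1) = ser Y X j) : ser Y X j = Y := by
  have h1 : ∀ k, ser Y X j ≤ ((⊤ : Subgroup G).lowerCentralSeries k) ⊔ Y := by
    intro k
    induction k with
    | zero => simp
    | succ k ih =>
      rw [← h]
      refine sup_le ?_ le_sup_right
      refine (Subgroup.commutator_mono ih le_rfl).trans ?_
      rw [Subgroup.commutator_le]
      intro g1 hg1 g2 _
      obtain ⟨c, hc, y, hy, rfl⟩ := (Subgroup.mem_sup_of_normal_right).mp hg1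
      have e : ⁅c * y, g2⁆ = (c * ⁅y, g2⁆ * c⁻¹) * ⁅c, g2⁆ := by
        simp only [commutatorElement_def]; group
      rw [e]
      refine Subgroup.mul_mem _ (Subgroup.mem_sup_right (hY.conj_mem _ ?_ c))
        (Subgroup.mem_sup_left ?_)
      · have : ⁅y, g2⁆ = y * (g2 * y⁻¹ * g2⁻¹) := by
          simp only [commutatorElement_def]; group
        rw [this]
        exact Y.mul_mem hy (hY.conj_mem _ (Y.inv_mem hy) g2)
      · exact Subgroup.commutator_mem_commutator hc (Subgroup.mem_top g2)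
  obtain ⟨n, hn⟩ := Subgroup.nilpotent_iff_lowerCentralSeries.mp (inferInstance : Group.IsNilpotent G)
  have h2 := h1 n
  rw [hn, bot_sup_eq] at h2
  exact le_antisymm h2 (le_ser hYX j)

theorem relIndex_eq_pow [Finite G] {p : ℕ} [hp : Fact p.Prime] (hG : IsPGroup p G)
    (H K : Subgroup G) : ∃ k, H.relIndex K = p ^ k := by
  obtain ⟨n, hn⟩ := IsPGroup.iff_card.mp (hG.to_subgroup K)
  have h := H.relIndex_dvd_card K
  rw [hn] at h
  obtain ⟨k, _, hk⟩ := (Nat.dvd_prime_pow hp.out).mp h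
  exact ⟨k, hk⟩

theorem prime_le_relIndex [Finite G] {p : ℕ} [hp : Fact p.Prime] (hG : IsPGroup p G)
    {H K : Subgroup G} (h : ¬ K ≤ H) : p ≤ H.relIndex K := by
  obtain ⟨k, hk⟩ := relIndex_eq_pow hG H K
  rcases k with _ | k
  · exact absurd (Subgroup.relIndex_eq_one.mp (by simpa using hk)) h
  · rw [hk]
    exact Nat.le_self_pow (Nat.succ_ne_zero k) p

theorem ser_end [Finite G] {p : ℕ} [hp : Fact p.Prime] (hG : IsPGroup p G) {Y X : Subgroup G}
    (hY : Y.Normal) (hX : X.Normal) (hYX : Y ≤ X) {d : ℕ} (hd : Y.relIndex X ≤ p ^ d) :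
    ser Y X d = Y := by
  have hnil : Group.IsNilpotent G := hG.isNilpotent
  have hpp := hp.out.one_lt
  have key : ∀ j, ser Y X j = Y ∨ Y.relIndex (ser Y X j) * p ^ j ≤ Y.relIndex X := by
    intro j
    induction j with
    | zero => right; simp [ser]
    | succ j ih =>
      by_cases h0 : ser Y X j = Y
      · left
        exact le_antisymm ((ser_succ_le hY hX hYX j).trans h0.le) (le_ser hYX _)
      · by_cases h1 : ser Y X (j + 1) = Y
        · exact Or.inl h1
        · right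
          rcases ih with ih | ih
          · exact absurd ih h0
          · have h2 : ¬ ser Y X j ≤ ser Y X (j + 1) := fun hle =>
              h0 (ser_eq_of_stable hY hYX (le_antisymm (ser_succ_le hY hX hYX j) hle))
            have h3 := prime_le_relIndex hG h2
            have h4 := Subgroup.relIndex_mul_relIndex _ _ _ (le_ser hYX (j + 1))
              (ser_succ_le hY hX hYX j)
            calc Y.relIndex (ser Y X (j + 1)) * p ^ (j + 1)
                = Y.relIndex (ser Y X (j + 1)) * p * p ^ j := by ring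
              _ ≤ Y.relIndex (ser Y X (j + 1)) * (ser Y X (j + 1)).relIndex (ser Y X j) * p ^ j :=
                  Nat.mul_le_mul_right _ (Nat.mul_le_mul_left _ h3)
              _ ≤ _ := by rw [h4]; exact ih
  rcases key d with h | h
  · exact h
  · by_contra hne
    have h2 : ¬ ser Y X d ≤ Y := fun hle => hne (le_antisymm hle (le_ser hYX d))
    have h3 := prime_le_relIndex hG h2
    have h4 : p * p ^ d ≤ p ^ d := (Nat.mul_le_mul_right _ h3).trans (h.trans hd)
    have h5 : 0 < p ^ d := pow_pos hp.out.pos d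
    nlinarith

theorem exists_central_step [Finite G] {p : ℕ} [hp : Fact p.Prime] (hG : IsPGroup p G)
    {M N : Subgroup G} (hM : M.Normal) (hN : N.Normal) (hMN : M < N) :
    ∃ z ∈ N, z ∉ M ∧ ∀ g : G, ⁅g, z⁆ ∈ M := by
  classical
  obtain ⟨k, hk⟩ := relIndex_eq_pow hG M N
  have hex : ∃ n, ser M N n = M := ⟨k, ser_end hG hM hN hMN.le hk.le⟩
  have h1 := Nat.find_spec hex
  have h0 : Nat.find hex ≠ 0 := by
    intro h
    rw [h] at h1
    exact hMN.ne' h1
  obtain ⟨j, hj⟩ := Nat.exists_eq_succ_of_ne_zero h0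
  have h2 : ser M N j ≠ M := Nat.find_min hex (by omega)
  have h3 : ¬ ser M N j ≤ M := fun hle => h2 (le_antisymm hle (le_ser hMN.le j))
  obtain ⟨z, hz, hzM⟩ := SetLike.not_le_iff_exists.mp h3
  refine ⟨z, (ser_anti hM hN hMN.le (Nat.zero_le j)) hz, hzM, ?_⟩
  intro g
  have h5 := act_ser M N g j z hz
  rw [hj] at h1
  have h6 : ser M N (j + 1) = M := h1
  rwa [h6] at h5

/-- the subgroup of all `g` with `Act g X Z`, for normal `Z`. -/
def actS (X Z : Subgroup G) (hZ : Z.Normal) : Subgroup G where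
  carrier := {g | Act g X Z}
  mul_mem' := by
    intro a b ha hb u hu
    have e : ⁅a * b, u⁆ = (a * ⁅b, u⁆ * a⁻¹) * ⁅a, u⁆ := by
      simp only [commutatorElement_def]; group
    rw [e]
    exact Z.mul_mem (hZ.conj_mem _ (hb u hu) a) (ha u hu)
  one_mem' := by
    intro u _
    simp [commutatorElement_def]
  inv_mem' := by
    intro a ha u hu
    have e : ⁅a⁻¹, u⁆ = a⁻¹ * ⁅a, u⁆⁻¹ * a⁻¹⁻¹ := by
      simp only [commutatorElement_def]; group
    rw [e]
    exact hZ.conj_mem _ (Z.inv_mem (ha u hu)) a⁻¹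

theorem mem_actS {X Z : Subgroup G} {hZ : Z.Normal} {g : G} : g ∈ actS X Z hZ ↔ Act g X Z :=
  Iff.rfl

theorem Act.mono {g : G} {X Z Z' : Subgroup G} (h : Act g X Z) (hZ : Z ≤ Z') : Act g X Z' :=
  fun u hu => hZ (h u hu)

/-- the filtration of `A` used for the bound on normal sections. -/
def Dsec (A B : Subgroup G) {Y X : Subgroup G} (hY : Y.Normal) (hX : X.Normal) (i : ℕ) :
    Subgroup G :=
  A ⊓ (B ⊔ ser Y X (i - 1)) ⊓ ⨅ j, actS (ser Y X j) (ser Y X (j + i)) (ser_normal hY hX _)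

theorem mem_Dsec {A B : Subgroup G} {Y X : Subgroup G} {hY : Y.Normal} {hX : X.Normal} {i : ℕ}
    {a : G} : a ∈ Dsec A B hY hX i ↔
      (a ∈ A ∧ a ∈ B ⊔ ser Y X (i - 1)) ∧ ∀ j, Act a (ser Y X j) (ser Y X (j + i)) := by
  simp [Dsec, Subgroup.mem_iInf, mem_actS]

theorem comm_mul_comm {Q : Type*} [Group Q] {b m b' m' : Q} (h1 : Commute b m)
    (h2 : Commute b m') (h3 : Commute b' m) (h4 : Commute b' m') (h5 : Commute m m') :
    ⁅b * m, b' * m'⁆ = ⁅b, b'⁆ := by
  have e1 : (b * m) * (b' * m') = (b * b') * (m * m') := by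
    calc (b * m) * (b' * m') = b * (m * b') * m' := by simp only [mul_assoc]
      _ = b * (b' * m) * m' := by rw [h3.eq]
      _ = _ := by simp only [mul_assoc]
  have e2 : (b' * m') * (b * m) = (b' * b) * (m * m') := by
    calc (b' * m') * (b * m) = b' * (m' * b) * m := by simp only [mul_assoc]
      _ = b' * (b * m') * m := by rw [h2.eq]
      _ = (b' * b) * (m' * m) := by simp only [mul_assoc]
      _ = _ := by rw [h5.eq]
  have e3 : ∀ x y : Q, ⁅x, y⁆ = (x * y) * (y * x)⁻¹ := by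
    intro x y
    simp only [commutatorElement_def]; group
  rw [e3, e3 b b', e1, e2]
  group

theorem Dsec_elsec {p : ℕ} (A B : Subgroup G) {Y X : Subgroup G} (hY : Y.Normal)
    (hX : X.Normal) (hS : ElSec p Y X) (i : ℕ) (hi : 1 ≤ i) :
    ElSec p (Dsec A B hY hX (2 * i)) (Dsec A B hY hX i) := by
  obtain ⟨hYX, hpow, hcom⟩ := hS
  have hN := ser_normal hY hX
  have hanti := ser_anti hY hX hYX
  have hXall : ∀ j, ser Y X j ≤ X := fun j => hanti (Nat.zero_le j)
  have hYall : ∀ j, Y ≤ ser Y X j := le_ser hYX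
  have i1 : 2 * i - 1 = (i - 1) + i := by omega
  have i2 : ∀ j, j + 2 * i = (j + i) + i := fun j => by omega
  refine ⟨?_, ?_, ?_⟩
  · intro a ha
    rw [mem_Dsec] at ha ⊢
    refine ⟨⟨ha.1.1, ?_⟩, fun j => (ha.2 j).mono (hanti (by omega))⟩
    exact (sup_le_sup_left (hanti (by omega)) B) ha.1.2
  · intro a ha
    rw [mem_Dsec] at ha ⊢
    obtain ⟨⟨haA, haB⟩, hact⟩ := ha
    refine ⟨⟨A.pow_mem haA p, ?_⟩, ?_⟩
    · have := hN (i - 1)
      have := hN (i - 1 + i)
      obtain ⟨b, hb, m, hm, rfl⟩ := (Subgroup.mem_sup_of_normal_right).mp haB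
      rw [i1]
      set K := ser Y X (i - 1 + i) with hK
      have c1 : Commute ((b * m : G) : G ⧸ K) (m : G ⧸ K) :=
        mem_iff_commute.mp (hact (i - 1) m hm)
      have c2 : Commute (b : G ⧸ K) (m : G ⧸ K) := by
        have e : (b : G ⧸ K) = ((b * m : G) : G ⧸ K) * (m : G ⧸ K)⁻¹ := by
          rw [QuotientGroup.mk_mul]; group
        rw [e]
        exact c1.mul_left (Commute.refl _).inv_left
      have e : (((b * m) ^ p : G) : G ⧸ K) = ((b ^ p : G) : G ⧸ K) := by
        rw [QuotientGroup.mk_pow, QuotientGroup.mk_mul, c2.mul_pow, ← QuotientGroup.mk_pow,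
          ← QuotientGroup.mk_pow]
        have : ((m ^ p : G) : G ⧸ K) = 1 :=
          (QuotientGroup.eq_one_iff _).mpr (hYall _ (hpow m (hXall _ hm)))
        rw [this, mul_one]
      have e' : (b ^ p)⁻¹ * (b * m) ^ p ∈ K := QuotientGroup.eq.mp e.symm
      have e'' : (b * m) ^ p = b ^ p * ((b ^ p)⁻¹ * (b * m) ^ p) := by group
      rw [e'']
      exact Subgroup.mul_mem _ (Subgroup.mem_sup_left (B.pow_mem hb p))
        (Subgroup.mem_sup_right e')
    · intro j
      have := hN j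
      have := hN (j + i)
      have := hN (j + 2 * i)
      refine two_step_pow (Z := ser Y X (j + i)) ?_ (hact j) ?_
      · intro z hz
        exact hYall _ (hpow z (hXall _ hz))
      · rw [i2]; exact hact (j + i)
  · intro a ha a' ha'
    rw [mem_Dsec] at ha ha' ⊢
    obtain ⟨⟨haA, haB⟩, hact⟩ := ha
    obtain ⟨⟨haA', haB'⟩, hact'⟩ := ha'
    refine ⟨⟨?_, ?_⟩, ?_⟩
    · rw [commutatorElement_def]
      exact A.mul_mem (A.mul_mem (A.mul_mem haA haA') (A.inv_mem haA)) (A.inv_mem haA')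
    · have := hN (i - 1)
      have := hN (i - 1 + i)
      obtain ⟨b, hb, m, hm, rfl⟩ := (Subgroup.mem_sup_of_normal_right).mp haB
      obtain ⟨b', hb', m', hm', rfl⟩ := (Subgroup.mem_sup_of_normal_right).mp haB'
      rw [i1]
      set K := ser Y X (i - 1 + i) with hK
      have c1 : Commute ((b * m : G) : G ⧸ K) (m : G ⧸ K) :=
        mem_iff_commute.mp (hact (i - 1) m hm)
      have c1' : Commute ((b * m : G) : G ⧸ K) (m' : G ⧸ K) :=
        mem_iff_commute.mp (hact (i - 1) m' hm')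
      have c2 : Commute ((b' * m' : G) : G ⧸ K) (m : G ⧸ K) :=
        mem_iff_commute.mp (hact' (i - 1) m hm)
      have c2' : Commute ((b' * m' : G) : G ⧸ K) (m' : G ⧸ K) :=
        mem_iff_commute.mp (hact' (i - 1) m' hm')
      have c3 : Commute (m : G ⧸ K) (m' : G ⧸ K) :=
        mem_iff_commute.mp (hYall _ (hcom m (hXall _ hm) m' (hXall _ hm')))
      have eb : (b : G ⧸ K) = ((b * m : G) : G ⧸ K) * (m : G ⧸ K)⁻¹ := by
        rw [QuotientGroup.mk_mul]; group
      have eb' : (b' : G ⧸ K) = ((b' * m' : G) : G ⧸ K) * (m' : G ⧸ K)⁻¹ := by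
        rw [QuotientGroup.mk_mul]; group
      have d1 : Commute (b : G ⧸ K) (m : G ⧸ K) := by
        rw [eb]; exact c1.mul_left (Commute.refl _).inv_left
      have d2 : Commute (b : G ⧸ K) (m' : G ⧸ K) := by
        rw [eb]; exact c1'.mul_left c3.inv_left
      have d3 : Commute (b' : G ⧸ K) (m : G ⧸ K) := by
        rw [eb']; exact c2.mul_left c3.symm.inv_left
      have d4 : Commute (b' : G ⧸ K) (m' : G ⧸ K) := by
        rw [eb']; exact c2'.mul_left (Commute.refl _).inv_left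
      have e : ((⁅b * m, b' * m'⁆ : G) : G ⧸ K) = ((⁅b, b'⁆ : G) : G ⧸ K) := by
        have := comm_mul_comm d1 d2 d3 d4 c3
        simpa only [commutatorElement_def, QuotientGroup.mk_mul, QuotientGroup.mk_inv] using this
      have e' : ⁅b, b'⁆⁻¹ * ⁅b * m, b' * m'⁆ ∈ K := QuotientGroup.eq.mp e.symm
      have e'' : ⁅b * m, b' * m'⁆ = ⁅b, b'⁆ * (⁅b, b'⁆⁻¹ * ⁅b * m, b' * m'⁆) := by group
      rw [e'']
      refine Subgroup.mul_mem _ (Subgroup.mem_sup_left ?_) (Subgroup.mem_sup_right e')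
      rw [commutatorElement_def]
      exact B.mul_mem (B.mul_mem (B.mul_mem hb hb') (B.inv_mem hb)) (B.inv_mem hb')
    · intro j
      have := hN j
      have := hN (j + i)
      have := hN (j + 2 * i)
      refine two_step_comm (Z := ser Y X (j + i)) ?_ (hact j) ?_ (hact' j) ?_
      · intro z hz z' hz'
        exact hYall _ (hcom z (hXall _ hz) z' (hXall _ hz'))
      · rw [i2]; exact hact (j + i)
      · rw [i2]; exact hact' (j + i)

/-- bound for `G`-normal elementary abelian sections of `G = A B`. -/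
theorem sec_bound [Finite G] {p : ℕ} [hp : Fact p.Prime] (hG : IsPGroup p G)
    {A B : Subgroup G} (hAB : ∀ g : G, ∃ a ∈ A, ∃ b ∈ B, a * b = g) {s m : ℕ}
    (hA : RkLE p A s) (hB : RkLE p B m) {Y X : Subgroup G} (hY : Y.Normal) (hX : X.Normal)
    (hS : ElSec p Y X) {d : ℕ} (hd : Y.relIndex X ≤ p ^ d) :
    Y.relIndex X ≤ p ^ (m + s * Nat.clog 2 (d + 1)) := by
  have h1 := relIndex_le_sup_mul_inf_left hS.1 B
  have h2 : (Y ⊓ B).relIndex (X ⊓ B) ≤ p ^ m := hB _ _ inf_le_right (hS.inf B)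
  have h3 : (Y ⊔ B).relIndex (X ⊔ B) ≤ (Y ⊔ B).relIndex (A ⊓ (X ⊔ B)) := by
    refine relIndex_le_of_cover inf_le_right ?_
    intro t ht
    obtain ⟨a, ha, b, hb, rfl⟩ := hAB t
    refine ⟨a, ⟨ha, ?_⟩, ?_⟩
    · have : a * b * b⁻¹ ∈ X ⊔ B :=
        Subgroup.mul_mem _ ht (Subgroup.inv_mem _ (Subgroup.mem_sup_right hb))
      simpa using this
    · have : a⁻¹ * (a * b) = b := by group
      rw [this]
      exact Subgroup.mem_sup_right hb
  have h4 : Dsec A B hY hX 1 = A ⊓ (X ⊔ B) := by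
    ext a
    rw [mem_Dsec]
    constructor
    · rintro ⟨⟨h, h'⟩, _⟩
      refine ⟨h, ?_⟩
      rw [sup_comm]
      exact h'
    · rintro ⟨h, h'⟩
      refine ⟨⟨h, ?_⟩, fun j => act_ser Y X a j⟩
      rw [sup_comm] at h'
      exact h'
  set k := Nat.clog 2 (d + 1) with hk
  have hkd : d + 1 ≤ 2 ^ k := Nat.le_pow_clog one_lt_two _
  have h5 : Dsec A B hY hX (2 ^ k) ≤ Y ⊔ B := by
    intro a ha
    rw [mem_Dsec] at ha
    have h6 := ha.1.2
    have h7 : ser Y X (2 ^ k - 1) ≤ Y := by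
      have := ser_anti hY hX hS.1 (show d ≤ 2 ^ k - 1 by omega)
      rwa [ser_end hG hY hX hS.1 hd] at this
    rw [sup_comm]
    exact (sup_le_sup_left h7 B) h6
  have h8 := (dyadic hA (Dsec A B hY hX) (fun i hi => Dsec_elsec A B hY hX hS i hi)
    (by rw [h4]; exact inf_le_left) k).2
  rw [h4] at h8
  calc Y.relIndex X ≤ (Y ⊔ B).relIndex (X ⊔ B) * (Y ⊓ B).relIndex (X ⊓ B) := h1
    _ ≤ p ^ (s * k) * p ^ m := by
        refine Nat.mul_le_mul ?_ h2
        exact h3.trans ((relIndex_anti_left h5 _).trans h8)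
    _ = p ^ (m + s * k) := by rw [← pow_add, add_comm]

end MP_b83a82_al
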